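import Pool.Agent.SQ42.Main3

set_option autoImplicit false

namespace Pool.Agent.Results.MP_7afa8d_nt.InitialRange

open Pool.Agent.SQ42

/-- The conjectured bound `M_{2r}(H,n) ≪ H n^{r+ε}` for every real `r ≥ 1`, uniformly in the
range `n^{1/2} ≤ H ≤ n^{1/2 + 1/(4⌈r⌉-2)}`. Here `S h n = ∑_{n/2 ≤ a ≤ n} e(h √a)` and `HS H` is
the set of the integers `h` with `H/2 ≤ h ≤ H`. -/
theorem result (r : ℝ) (hr : 1 ≤ r) (eps : ℝ) (heps : 0 < eps) :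
    ∃ C : ℝ, ∀ n : ℕ, 1 ≤ n → ∀ H : ℝ, (n : ℝ) ^ (1 / 2 : ℝ) ≤ H →
      H ≤ (n : ℝ) ^ (1 / 2 + 1 / (4 * (⌈r⌉₊ : ℝ) - 2)) →
      ∑ h ∈ HS H, ‖S h n‖ ^ (2 * r) ≤ C * H * (n : ℝ) ^ (r + eps) := by
  obtain ⟨C, _, hC⟩ := real_moment r hr eps heps
  exact ⟨C, hC⟩

end Pool.Agent.Results.MP_7afa8d_nt.InitialRange
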