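import Pool.Agent.SL13.RealS13

/-!
Moments of the exponential sums over square roots: the bound of Q1 for every exponent `r`, in the
range of very large frequencies `H ≥ n ^ (⌈r⌉ + (4 ^ ⌈r⌉ - 1) / 2)`.

`S h n` (file SQ42/Def) is the sum of `exp (2 π i h √a)` over the integers `a` with
`n / 2 ≤ a ≤ n`, and `HL H` (file SL13/Def) is the set of the integers `h ≥ 1` with
`H / 2 ≤ h ≤ H`.
-/

set_option autoImplicit false

namespace Pool.Agent.Results.MP_7afa8d_nt.LargeFrequencies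

open Pool.Agent.SQ42 Pool.Agent.SL13

theorem result (r : ℝ) (hr : 1 ≤ r) (eps : ℝ) (heps : 0 < eps) :
    ∃ C : ℝ, 0 ≤ C ∧ ∀ n : ℕ, 1 ≤ n → ∀ H : ℝ,
      (n : ℝ) ^ ((⌈r⌉₊ : ℝ) + (4 ^ ⌈r⌉₊ - 1) / 2) ≤ H →
        ∑ h ∈ HL H, ‖S h n‖ ^ (2 * r) ≤ C * H * (n : ℝ) ^ (r + eps) :=
  real_sharp r hr eps heps

end Pool.Agent.Results.MP_7afa8d_nt.LargeFrequencies
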